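import Mathlib

/-!
# Sparse `10`-critical graphs without `K₉`

We chain copies of `K₁₀` by the Hajós construction, always through two disjoint edges of each
copy, and close both ends of the chain with the `10`-critical graph `C₅ ∨ C₅ ∨ K₄`.
-/

set_option autoImplicit false

namespace Pool.Agent.Lib.MP_e338b6_co

open SimpleGraph

/-- Working notion: `G` is not `k`-colorable but every graph obtained by deleting one edge is. -/
def EdgeCrit {V : Type} (k : ℕ) (G : SimpleGraph V) : Prop :=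
  ¬ G.Colorable k ∧ ∀ a b, G.Adj a b → (G.deleteEdges {s(a, b)}).Colorable k

lemma colorable_of_fun {V : Type} {k : ℕ} {G : SimpleGraph V} (c : V → Fin k)
    (hc : ∀ a b, G.Adj a b → c a ≠ c b) : G.Colorable k :=
  ⟨Coloring.mk c (fun {a b} h => hc a b h)⟩

lemma fun_of_colorable {V : Type} {k : ℕ} {G : SimpleGraph V} (h : G.Colorable k) :
    ∃ c : V → Fin k, ∀ a b, G.Adj a b → c a ≠ c b :=
  ⟨h.some, fun _ _ hab => h.some.valid hab⟩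

/-- From the working notion to the official one. -/
lemma isCritical_of_edgeCrit {V : Type} {k : ℕ} {G : SimpleGraph V} (h : EdgeCrit k G)
    (hiso : ∀ v, ∃ w, G.Adj v w) (hne : Nonempty V) :
    G.chromaticNumber = ((k + 1 : ℕ) : ℕ∞) ∧
      ∀ H : G.Subgraph, H ≠ ⊤ → H.coe.chromaticNumber < ((k + 1 : ℕ) : ℕ∞) := by
  classical
  obtain ⟨v₀⟩ := hne
  obtain ⟨w₀, hvw⟩ := hiso v₀
  refine ⟨?_, ?_⟩
  · -- chromatic number
    have hcol : G.Colorable (k + 1) := by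
      obtain ⟨c, hc⟩ := fun_of_colorable (h.2 v₀ w₀ hvw)
      refine colorable_of_fun (fun v => if v = v₀ then Fin.last k else (c v).castSucc) ?_
      intro a b hab
      by_cases ha : a = v₀
      · by_cases hb : b = v₀
        · exact absurd (ha.trans hb.symm) hab.ne
        · simp only [ha, hb, if_true, if_false]
          exact (Fin.castSucc_lt_last _).ne'
      · by_cases hb : b = v₀
        · simp only [ha, hb, if_true, if_false]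
          exact (Fin.castSucc_lt_last _).ne
        · simp only [ha, hb, if_false]
          intro hcc
          refine hc a b ?_ (Fin.castSucc_injective _ hcc)
          rw [deleteEdges_adj]
          refine ⟨hab, ?_⟩
          simp only [Set.mem_singleton_iff, Sym2.eq_iff]
          rintro (⟨h1, _⟩ | ⟨_, h2⟩)
          · exact ha h1
          · exact hb h2
    have h1 : G.chromaticNumber ≤ ((k + 1 : ℕ) : ℕ∞) := hcol.chromaticNumber_le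
    have h2 : ((k + 1 : ℕ) : ℕ∞) ≤ G.chromaticNumber := by
      rw [le_chromaticNumber_iff_colorable]
      intro m hm
      by_contra hlt
      push Not at hlt
      have : m ≤ k := by
        have : m < k + 1 := by exact_mod_cast hlt
        omega
      exact h.1 (hm.mono this)
    exact le_antisymm h1 h2
  · intro H hH
    -- there is an edge of `G` missing in `H`
    have hmiss : ∃ a b, G.Adj a b ∧ ¬ H.Adj a b := by
      by_contra hcon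
      push Not at hcon
      apply hH
      apply le_antisymm le_top
      refine ⟨?_, ?_⟩
      · intro v _
        obtain ⟨w, hw⟩ := hiso v
        exact H.edge_vert (hcon v w hw)
      · intro a b hab
        exact hcon a b (by simpa using hab)
    obtain ⟨a, b, hab, hnot⟩ := hmiss
    have hc := h.2 a b hab
    have : H.coe.Colorable k := by
      refine Colorable.of_hom (G' := G.deleteEdges {s(a, b)}) ⟨fun v => v.1, ?_⟩ hc
      intro u v huv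
      have huv' : H.Adj u.1 v.1 := huv
      rw [deleteEdges_adj]
      refine ⟨H.adj_sub huv', ?_⟩
      simp only [Set.mem_singleton_iff, Sym2.eq_iff]
      rintro (⟨h1, h2⟩ | ⟨h1, h2⟩)
      · exact hnot (h1 ▸ h2 ▸ huv')
      · exact hnot (h1 ▸ h2 ▸ huv').symm
    calc H.coe.chromaticNumber ≤ (k : ℕ∞) := this.chromaticNumber_le
      _ < ((k + 1 : ℕ) : ℕ∞) := by exact_mod_cast Nat.lt_succ_self k

/-! ### The Hajós construction -/

section Hajos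

variable {V₁ V₂ : Type}

/-- Embedding of the second vertex set, sending `x₂` to `x₁`. -/
noncomputable def emb (x₁ : V₁) (x₂ : V₂) : V₂ ↪ V₁ ⊕ {v : V₂ // v ≠ x₂} where
  toFun := fun v => open Classical in if h : v = x₂ then Sum.inl x₁ else Sum.inr ⟨v, h⟩
  inj' := by
    intro a b hab
    by_cases ha : a = x₂ <;> by_cases hb : b = x₂ <;> simp [ha, hb] at hab ⊢
    exact hab

lemma emb_self (x₁ : V₁) (x₂ : V₂) : emb x₁ x₂ x₂ = Sum.inl x₁ :=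
  dif_pos rfl

lemma emb_ne (x₁ : V₁) (x₂ : V₂) {v : V₂} (h : v ≠ x₂) : emb x₁ x₂ v = Sum.inr ⟨v, h⟩ :=
  dif_neg h

lemma emb_eq_inl {x₁ : V₁} {x₂ : V₂} {v : V₂} {a : V₁} (h : emb x₁ x₂ v = Sum.inl a) :
    v = x₂ ∧ a = x₁ := by
  by_cases hv : v = x₂
  · subst hv
    rw [emb_self] at h
    exact ⟨rfl, (Sum.inl.inj h).symm⟩
  · rw [emb_ne _ _ hv] at h
    exact absurd h (by simp)

/-- The Hajós construction: delete `x₁y₁` and `x₂y₂`, identify `x₁` with `x₂`, add `y₁y₂`. -/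
noncomputable def hajos (G₁ : SimpleGraph V₁) (G₂ : SimpleGraph V₂) (x₁ y₁ : V₁) (x₂ y₂ : V₂) :
    SimpleGraph (V₁ ⊕ {v : V₂ // v ≠ x₂}) :=
  ((G₁.deleteEdges {s(x₁, y₁)}).map (Function.Embedding.inl : V₁ ↪ V₁ ⊕ {v : V₂ // v ≠ x₂})) ⊔
    ((G₂.deleteEdges {s(x₂, y₂)}).map (emb x₁ x₂)) ⊔
    SimpleGraph.edge (Sum.inl y₁) (emb x₁ x₂ y₂)

variable {G₁ : SimpleGraph V₁} {G₂ : SimpleGraph V₂} {x₁ y₁ : V₁} {x₂ y₂ : V₂}

lemma hajos_adj (u v : V₁ ⊕ {v : V₂ // v ≠ x₂}) :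
    (hajos G₁ G₂ x₁ y₁ x₂ y₂).Adj u v ↔
      (∃ a b, (G₁.Adj a b ∧ s(a, b) ≠ s(x₁, y₁)) ∧ Sum.inl a = u ∧ Sum.inl b = v) ∨
      (∃ a b, (G₂.Adj a b ∧ s(a, b) ≠ s(x₂, y₂)) ∧ emb x₁ x₂ a = u ∧ emb x₁ x₂ b = v) ∨
      ((u = Sum.inl y₁ ∧ v = emb x₁ x₂ y₂ ∨ u = emb x₁ x₂ y₂ ∧ v = Sum.inl y₁) ∧ u ≠ v) := by
  simp only [hajos, sup_adj, map_adj, deleteEdges_adj, Set.mem_singleton_iff, edge_adj,
    Function.Embedding.inl_apply, or_assoc, ne_eq]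

lemma inl_ne_emb (h₁ : x₁ ≠ y₁) (v : V₂) :
    (Sum.inl y₁ : V₁ ⊕ {v : V₂ // v ≠ x₂}) ≠ emb x₁ x₂ v := by
  intro h
  exact h₁ (emb_eq_inl h.symm).2.symm

/-- Building a colouring of a subgraph of the Hajós graph from two colourings. -/
lemma glue {k : ℕ} {H : SimpleGraph (V₁ ⊕ {v : V₂ // v ≠ x₂})}
    (hH : H ≤ hajos G₁ G₂ x₁ y₁ x₂ y₂) (c₁ : V₁ → Fin k) (c₂ : V₂ → Fin k)
    (h1 : ∀ a b, G₁.Adj a b → s(a, b) ≠ s(x₁, y₁) → H.Adj (Sum.inl a) (Sum.inl b) → c₁ a ≠ c₁ b)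
    (h2 : ∀ a b, G₂.Adj a b → s(a, b) ≠ s(x₂, y₂) → H.Adj (emb x₁ x₂ a) (emb x₁ x₂ b) →
      c₂ a ≠ c₂ b)
    (hx : c₁ x₁ = c₂ x₂)
    (hy : H.Adj (Sum.inl y₁) (emb x₁ x₂ y₂) → c₁ y₁ ≠ c₂ y₂) : H.Colorable k := by
  set c : V₁ ⊕ {v : V₂ // v ≠ x₂} → Fin k := Sum.elim c₁ (fun v => c₂ v.1) with hc
  have hcl : ∀ a, c (Sum.inl a) = c₁ a := fun a => rfl
  have hcr : ∀ v, c (emb x₁ x₂ v) = c₂ v := by
    intro v
    by_cases hv : v = x₂
    · subst hv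
      rw [emb_self, hcl, hx]
    · rw [emb_ne _ _ hv, hc, Sum.elim_inr]
  refine colorable_of_fun c ?_
  intro u v huv
  rcases (hajos_adj u v).1 (hH huv) with ⟨a, b, ⟨hab, hne⟩, rfl, rfl⟩ | ⟨a, b, ⟨hab, hne⟩, rfl, rfl⟩ |
    ⟨⟨rfl, rfl⟩ | ⟨rfl, rfl⟩, hne⟩
  · rw [hcl, hcl]
    exact h1 a b hab hne huv
  · rw [hcr, hcr]
    exact h2 a b hab hne huv
  · rw [hcl, hcr]
    exact hy huv
  · rw [hcl, hcr]
    exact (hy huv.symm).symm

/-- A colouring can be recoloured so that a prescribed vertex gets a prescribed colour. -/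
lemma align {V : Type} {k : ℕ} (c : V → Fin k) (x : V) (i : Fin k) :
    ∃ c' : V → Fin k, c' x = i ∧ ∀ a b, (c' a = c' b ↔ c a = c b) := by
  refine ⟨fun v => Equiv.swap (c x) i (c v), ?_, ?_⟩
  · simp
  · intro a b
    exact (Equiv.swap (c x) i).injective.eq_iff

lemma same_of_edgeCrit {V : Type} {k : ℕ} {G : SimpleGraph V} (h : EdgeCrit k G) {x y : V}
    (c : V → Fin k) (hc : ∀ a b, (G.deleteEdges {s(x, y)}).Adj a b → c a ≠ c b) : c x = c y := by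
  by_contra hne
  apply h.1
  refine colorable_of_fun c ?_
  intro a b hab
  by_cases he : s(a, b) = s(x, y)
  · rw [Sym2.eq_iff] at he
    rcases he with ⟨rfl, rfl⟩ | ⟨rfl, rfl⟩
    · exact hne
    · exact fun h' => hne h'.symm
  · exact hc a b (by rw [deleteEdges_adj]; exact ⟨hab, he⟩)

/-- The Hajós construction preserves criticality. -/
lemma hajos_edgeCrit {k : ℕ} (h₁ : EdgeCrit k G₁) (h₂ : EdgeCrit k G₂) (e₁ : G₁.Adj x₁ y₁)
    (e₂ : G₂.Adj x₂ y₂) : EdgeCrit k (hajos G₁ G₂ x₁ y₁ x₂ y₂) := by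
  obtain ⟨c₁, hc₁⟩ := fun_of_colorable (h₁.2 x₁ y₁ e₁)
  obtain ⟨c₂, hc₂⟩ := fun_of_colorable (h₂.2 x₂ y₂ e₂)
  have hs₁ : c₁ x₁ = c₁ y₁ := same_of_edgeCrit h₁ c₁ hc₁
  have hs₂ : c₂ x₂ = c₂ y₂ := same_of_edgeCrit h₂ c₂ hc₂
  refine ⟨?_, ?_⟩
  · intro hcol
    obtain ⟨c, hc⟩ := fun_of_colorable hcol
    have k1 : c (Sum.inl x₁) = c (Sum.inl y₁) := by
      refine same_of_edgeCrit h₁ (fun a => c (Sum.inl a)) ?_
      intro a b hab
      rw [deleteEdges_adj] at hab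
      exact hc _ _ ((hajos_adj _ _).2 (Or.inl ⟨a, b, ⟨hab.1, hab.2⟩, rfl, rfl⟩))
    have k2 : c (emb x₁ x₂ x₂) = c (emb x₁ x₂ y₂) := by
      refine same_of_edgeCrit h₂ (fun a => c (emb x₁ x₂ a)) ?_
      intro a b hab
      rw [deleteEdges_adj] at hab
      exact hc _ _ ((hajos_adj _ _).2 (Or.inr (Or.inl ⟨a, b, ⟨hab.1, hab.2⟩, rfl, rfl⟩)))
    rw [emb_self] at k2
    refine hc (Sum.inl y₁) (emb x₁ x₂ y₂) ((hajos_adj _ _).2 (Or.inr (Or.inr ⟨Or.inl ⟨rfl, rfl⟩,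
      inl_ne_emb e₁.ne _⟩))) ?_
    rw [← k1, k2]
  · intro u v huv
    have hle : (hajos G₁ G₂ x₁ y₁ x₂ y₂).deleteEdges {s(u, v)} ≤ hajos G₁ G₂ x₁ y₁ x₂ y₂ :=
      deleteEdges_le _
    rcases (hajos_adj u v).1 huv with ⟨a, b, ⟨hab, hne⟩, rfl, rfl⟩ |
      ⟨a, b, ⟨hab, hne⟩, rfl, rfl⟩ | ⟨hor, hne⟩
    · -- an edge of the first part was deleted
      obtain ⟨d₁, hd₁⟩ := fun_of_colorable (h₁.2 a b hab)
      obtain ⟨d₂, hd₂, hd₂'⟩ := align c₂ x₂ (d₁ x₁)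
      refine glue hle d₁ d₂ ?_ ?_ hd₂.symm ?_
      · intro p q hpq _ hH
        refine hd₁ p q ?_
        rw [deleteEdges_adj] at hH ⊢
        refine ⟨hpq, fun h => hH.2 ?_⟩
        simp only [Set.mem_singleton_iff] at h ⊢
        rw [Sym2.eq_iff] at h ⊢
        rcases h with ⟨rfl, rfl⟩ | ⟨rfl, rfl⟩
        · exact Or.inl ⟨rfl, rfl⟩
        · exact Or.inr ⟨rfl, rfl⟩
      · intro p q hpq hne' _ heq
        exact hc₂ p q (by rw [deleteEdges_adj]; exact ⟨hpq, hne'⟩) ((hd₂' p q).1 heq)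
      · intro _
        have : d₂ y₂ = d₁ x₁ := by rw [← hd₂]; exact (hd₂' y₂ x₂).2 hs₂.symm
        rw [this]
        refine (hd₁ x₁ y₁ ?_).symm
        rw [deleteEdges_adj]
        exact ⟨e₁, fun h => hne h.symm⟩
    · -- an edge of the second part was deleted
      obtain ⟨d₂, hd₂⟩ := fun_of_colorable (h₂.2 a b hab)
      obtain ⟨d₁, hd₁, hd₁'⟩ := align c₁ x₁ (d₂ x₂)
      refine glue hle d₁ d₂ ?_ ?_ hd₁ ?_
      · intro p q hpq hne' _ heq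
        exact hc₁ p q (by rw [deleteEdges_adj]; exact ⟨hpq, hne'⟩) ((hd₁' p q).1 heq)
      · intro p q hpq _ hH
        refine hd₂ p q ?_
        rw [deleteEdges_adj] at hH ⊢
        refine ⟨hpq, fun h => hH.2 ?_⟩
        simp only [Set.mem_singleton_iff] at h ⊢
        rw [Sym2.eq_iff] at h ⊢
        rcases h with ⟨rfl, rfl⟩ | ⟨rfl, rfl⟩
        · exact Or.inl ⟨rfl, rfl⟩
        · exact Or.inr ⟨rfl, rfl⟩
      · intro _
        have : d₁ y₁ = d₂ x₂ := by rw [← hd₁]; exact (hd₁' y₁ x₁).2 hs₁.symm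
        rw [this]
        refine hd₂ x₂ y₂ ?_
        rw [deleteEdges_adj]
        exact ⟨e₂, fun h => hne h.symm⟩
    · -- the new edge was deleted
      obtain ⟨d₂, hd₂, hd₂'⟩ := align c₂ x₂ (c₁ x₁)
      refine glue hle c₁ d₂ ?_ ?_ hd₂.symm ?_
      · intro p q hpq hne' _
        exact hc₁ p q (by rw [deleteEdges_adj]; exact ⟨hpq, hne'⟩)
      · intro p q hpq hne' _ heq
        exact hc₂ p q (by rw [deleteEdges_adj]; exact ⟨hpq, hne'⟩) ((hd₂' p q).1 heq)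
      · intro hH
        exfalso
        rw [deleteEdges_adj] at hH
        apply hH.2
        simp only [Set.mem_singleton_iff]
        rw [Sym2.eq_iff]
        rcases hor with ⟨rfl, rfl⟩ | ⟨rfl, rfl⟩
        · exact Or.inl ⟨rfl, rfl⟩
        · exact Or.inr ⟨rfl, rfl⟩

/-- Every vertex has two neighbours. -/
def TwoNbrs {V : Type} (G : SimpleGraph V) : Prop :=
  ∀ v, ∃ z z', G.Adj v z ∧ G.Adj v z' ∧ z ≠ z'

lemma TwoNbrs.other {V : Type} {G : SimpleGraph V} (h : TwoNbrs G) (v w : V) :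
    ∃ z, G.Adj v z ∧ z ≠ w := by
  obtain ⟨z, z', h1, h2, h3⟩ := h v
  by_cases hz : z = w
  · exact ⟨z', h2, fun h' => h3 (hz.trans h'.symm)⟩
  · exact ⟨z, h1, hz⟩

lemma hajos_adj_inl {a b : V₁} (h : G₁.Adj a b) (hne : s(a, b) ≠ s(x₁, y₁)) :
    (hajos G₁ G₂ x₁ y₁ x₂ y₂).Adj (Sum.inl a) (Sum.inl b) :=
  (hajos_adj _ _).2 (Or.inl ⟨a, b, ⟨h, hne⟩, rfl, rfl⟩)

lemma hajos_adj_emb {a b : V₂} (h : G₂.Adj a b) (hne : s(a, b) ≠ s(x₂, y₂)) :
    (hajos G₁ G₂ x₁ y₁ x₂ y₂).Adj (emb x₁ x₂ a) (emb x₁ x₂ b) :=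
  (hajos_adj _ _).2 (Or.inr (Or.inl ⟨a, b, ⟨h, hne⟩, rfl, rfl⟩))

lemma hajos_adj_new (h : x₁ ≠ y₁) :
    (hajos G₁ G₂ x₁ y₁ x₂ y₂).Adj (Sum.inl y₁) (emb x₁ x₂ y₂) :=
  (hajos_adj _ _).2 (Or.inr (Or.inr ⟨Or.inl ⟨rfl, rfl⟩, inl_ne_emb h _⟩))

lemma hajos_twoNbrs (h₁ : TwoNbrs G₁) (h₂ : TwoNbrs G₂) (e₁ : G₁.Adj x₁ y₁)
    (e₂ : G₂.Adj x₂ y₂) : TwoNbrs (hajos G₁ G₂ x₁ y₁ x₂ y₂) := by
  rintro (a | ⟨b, hb⟩)
  · by_cases hax : a = x₁
    · subst hax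
      obtain ⟨z₁, hz₁, hz₁'⟩ := h₁.other a y₁
      obtain ⟨z₂, hz₂, hz₂'⟩ := h₂.other x₂ y₂
      refine ⟨Sum.inl z₁, emb a x₂ z₂, hajos_adj_inl hz₁ ?_, ?_, ?_⟩
      · rw [Ne, Sym2.eq_iff]
        rintro (⟨_, h⟩ | ⟨h, h'⟩)
        · exact hz₁' h
        · exact e₁.ne h
      · have := hajos_adj_emb (G₁ := G₁) (x₁ := a) (y₁ := y₁) hz₂ (y₂ := y₂) (x₂ := x₂) ?_
        · rwa [emb_self] at this
        · rw [Ne, Sym2.eq_iff]
          rintro (⟨_, h⟩ | ⟨h, h'⟩)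
          · exact hz₂' h
          · exact e₂.ne h
      · rw [emb_ne _ _ hz₂.ne']
        simp
    · by_cases hay : a = y₁
      · subst hay
        obtain ⟨z₁, hz₁, hz₁'⟩ := h₁.other a x₁
        refine ⟨Sum.inl z₁, emb x₁ x₂ y₂, hajos_adj_inl hz₁ ?_, hajos_adj_new (Ne.symm hax), ?_⟩
        · rw [Ne, Sym2.eq_iff]
          rintro (⟨h, _⟩ | ⟨_, h'⟩)
          · exact hax h
          · exact hz₁' h'
        · rw [emb_ne _ _ e₂.ne']
          simp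
      · obtain ⟨z, z', hz, hz', hzz⟩ := h₁ a
        refine ⟨Sum.inl z, Sum.inl z', hajos_adj_inl hz ?_, hajos_adj_inl hz' ?_, ?_⟩
        · rw [Ne, Sym2.eq_iff]
          rintro (⟨h, _⟩ | ⟨h, _⟩)
          · exact hax h
          · exact hay h
        · rw [Ne, Sym2.eq_iff]
          rintro (⟨h, _⟩ | ⟨h, _⟩)
          · exact hax h
          · exact hay h
        · intro h
          exact hzz (Sum.inl.inj h)
  · have hbe : (Sum.inr ⟨b, hb⟩ : V₁ ⊕ {v : V₂ // v ≠ x₂}) = emb x₁ x₂ b := (emb_ne _ _ hb).symm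
    rw [hbe]
    by_cases hby : b = y₂
    · subst hby
      obtain ⟨z, hz, hz'⟩ := h₂.other b x₂
      refine ⟨emb x₁ x₂ z, Sum.inl y₁, hajos_adj_emb hz ?_, (hajos_adj_new e₁.ne).symm, ?_⟩
      · rw [Ne, Sym2.eq_iff]
        rintro (⟨h, _⟩ | ⟨_, h'⟩)
        · exact hb h
        · exact hz' h'
      · rw [emb_ne _ _ hz']
        simp
    · obtain ⟨z, z', hz, hz', hzz⟩ := h₂ b
      refine ⟨emb x₁ x₂ z, emb x₁ x₂ z', hajos_adj_emb hz ?_, hajos_adj_emb hz' ?_, ?_⟩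
      · rw [Ne, Sym2.eq_iff]
        rintro (⟨h, _⟩ | ⟨h, _⟩)
        · exact hb h
        · exact hby h
      · rw [Ne, Sym2.eq_iff]
        rintro (⟨h, _⟩ | ⟨h, _⟩)
        · exact hb h
        · exact hby h
      · exact fun h => hzz ((emb x₁ x₂).injective h)

/-- Counting the edges of the Hajós graph. -/
lemma hajos_ncard [Finite V₁] [Finite V₂] (e₁ : G₁.Adj x₁ y₁) (e₂ : G₂.Adj x₂ y₂) :
    (hajos G₁ G₂ x₁ y₁ x₂ y₂).edgeSet.ncard + 1 = G₁.edgeSet.ncard + G₂.edgeSet.ncard := by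
  classical
  have hE : (hajos G₁ G₂ x₁ y₁ x₂ y₂).edgeSet =
      ((Function.Embedding.inl : V₁ ↪ V₁ ⊕ {v : V₂ // v ≠ x₂}).sym2Map ''
          (G₁.edgeSet \ {s(x₁, y₁)}) ∪
        (emb x₁ x₂).sym2Map '' (G₂.edgeSet \ {s(x₂, y₂)})) ∪ {s(Sum.inl y₁, emb x₁ x₂ y₂)} := by
    rw [hajos, edgeSet_sup, edgeSet_sup, edgeSet_map, edgeSet_map, edgeSet_deleteEdges,
      edgeSet_deleteEdges, edgeSet_edge_of_ne (inl_ne_emb e₁.ne _)]
  have hd1 : Disjoint ((Function.Embedding.inl : V₁ ↪ V₁ ⊕ {v : V₂ // v ≠ x₂}).sym2Map ''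
          (G₁.edgeSet \ {s(x₁, y₁)})) ((emb x₁ x₂).sym2Map '' (G₂.edgeSet \ {s(x₂, y₂)})) := by
    rw [Set.disjoint_left]
    rintro e ⟨e', he', rfl⟩ ⟨e'', he'', heq⟩
    induction e' with | _ a b =>
    induction e'' with | _ p q =>
    simp only [Function.Embedding.sym2Map_apply, Sym2.map_mk, Function.Embedding.inl_apply,
      Sym2.eq_iff] at heq
    have hpq : G₂.Adj p q := he''.1
    rcases heq with ⟨h, h'⟩ | ⟨h, h'⟩
    · exact hpq.ne ((emb_eq_inl h).1.trans (emb_eq_inl h').1.symm)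
    · exact hpq.ne ((emb_eq_inl h).1.trans (emb_eq_inl h').1.symm)
  have hd2 : Disjoint ((Function.Embedding.inl : V₁ ↪ V₁ ⊕ {v : V₂ // v ≠ x₂}).sym2Map ''
          (G₁.edgeSet \ {s(x₁, y₁)}) ∪
        (emb x₁ x₂).sym2Map '' (G₂.edgeSet \ {s(x₂, y₂)})) {s(Sum.inl y₁, emb x₁ x₂ y₂)} := by
    rw [Set.disjoint_singleton_right, emb_ne _ _ e₂.ne']
    rintro (⟨e', he', heq⟩ | ⟨e'', he'', heq⟩)
    · induction e' with | _ a b =>
      simp [Function.Embedding.sym2Map_apply, Sym2.map_mk] at heq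
    · induction e'' with | _ p q =>
      simp only [Function.Embedding.sym2Map_apply, Sym2.map_mk, Sym2.eq_iff] at heq
      rcases heq with ⟨h, h'⟩ | ⟨h, h'⟩
      · exact e₁.ne (emb_eq_inl h).2.symm
      · exact e₁.ne (emb_eq_inl h').2.symm
  have hf1 : G₁.edgeSet.Finite := Set.toFinite _
  have hf2 : G₂.edgeSet.Finite := Set.toFinite _
  rw [hE, Set.ncard_union_eq hd2 (Set.toFinite _) (Set.toFinite _),
    Set.ncard_union_eq hd1 (Set.toFinite _) (Set.toFinite _),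
    Set.ncard_image_of_injective _ (Function.Embedding.injective _),
    Set.ncard_image_of_injective _ (Function.Embedding.injective _), Set.ncard_singleton]
  have n1 := Set.ncard_sdiff_singleton_add_one (show s(x₁, y₁) ∈ G₁.edgeSet from e₁) hf1
  have n2 := Set.ncard_sdiff_singleton_add_one (show s(x₂, y₂) ∈ G₂.edgeSet from e₂) hf2
  omega

/-- A clique with at least three vertices in the Hajós graph lives in one of the two parts. -/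
lemma hajos_cliqueFree {n : ℕ} (hn : 3 ≤ n) (e₁ : G₁.Adj x₁ y₁)
    {H : SimpleGraph (V₁ ⊕ {v : V₂ // v ≠ x₂})} (hH : H ≤ hajos G₁ G₂ x₁ y₁ x₂ y₂)
    (h1 : (H.comap (Function.Embedding.inl : V₁ ↪ V₁ ⊕ {v : V₂ // v ≠ x₂})).CliqueFree n)
    (h2 : (H.comap (emb x₁ x₂)).CliqueFree n) : H.CliqueFree n := by
  classical
  intro s hs
  rw [isNClique_iff] at hs
  obtain ⟨hcl, hcard⟩ := hs
  by_cases hA : ∀ u ∈ s, ∃ a, (Sum.inl a : V₁ ⊕ {v : V₂ // v ≠ x₂}) = u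
  · refine h1 (s.preimage Sum.inl (Sum.inl_injective.injOn)) ?_
    rw [isNClique_iff]
    refine ⟨?_, ?_⟩
    · intro a ha b hb hab
      simp only [Finset.coe_preimage, Set.mem_preimage, Finset.mem_coe] at ha hb
      exact hcl ha hb (fun h => hab (Sum.inl.inj h))
    · rw [← hcard, Finset.card_preimage, Finset.filter_true_of_mem]
      intro u hu
      exact hA u hu
  by_cases hB : ∀ u ∈ s, ∃ b, emb x₁ x₂ b = u
  · refine h2 (s.preimage (emb x₁ x₂) ((emb x₁ x₂).injective.injOn)) ?_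
    rw [isNClique_iff]
    refine ⟨?_, ?_⟩
    · intro a ha b hb hab
      simp only [Finset.coe_preimage, Set.mem_preimage, Finset.mem_coe] at ha hb
      exact hcl ha hb (fun h => hab ((emb x₁ x₂).injective h))
    · rw [← hcard, Finset.card_preimage, Finset.filter_true_of_mem]
      intro u hu
      exact hB u hu
  push Not at hA hB
  obtain ⟨u, hu, hu'⟩ := hA
  obtain ⟨w, hw, hw'⟩ := hB
  have huw : u ≠ w := by
    rintro rfl
    rcases u with a | ⟨b, hb⟩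
    · exact hu' a rfl
    · exact hw' b (emb_ne _ _ hb)
  obtain ⟨t, ht, htu, htw⟩ : ∃ t ∈ s, t ≠ u ∧ t ≠ w := by
    by_contra hcon
    push Not at hcon
    have : s ⊆ {u, w} := by
      intro t ht
      by_cases h : t = u
      · simp [h]
      · simp [hcon t ht h]
    have := Finset.card_le_card this
    have h2 := Finset.card_le_two (a := u) (b := w)
    omega
  -- `u` and `w` are joined by the new edge
  have key : ∀ u w : V₁ ⊕ {v : V₂ // v ≠ x₂}, (∀ a, (Sum.inl a : V₁ ⊕ {v : V₂ // v ≠ x₂}) ≠ u) →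
      (∀ b, emb x₁ x₂ b ≠ w) → (hajos G₁ G₂ x₁ y₁ x₂ y₂).Adj u w →
      u = emb x₁ x₂ y₂ ∧ w = Sum.inl y₁ := by
    intro u w h h' hadj
    rcases (hajos_adj u w).1 hadj with ⟨a, b, _, ha, hb⟩ | ⟨a, b, _, ha, hb⟩ |
      ⟨⟨ha, hb⟩ | ⟨ha, hb⟩, _⟩
    · exact absurd ha (h a)
    · exact absurd hb (h' b)
    · exact absurd ha.symm (h _)
    · exact ⟨ha, hb⟩
  have huw' := key u w hu' hw' (hH (hcl hu hw huw))
  obtain ⟨rfl, rfl⟩ := huw'
  have htu' := hH (hcl ht hu htu)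
  have htw' := hH (hcl ht hw htw)
  rcases t with a | ⟨b, hb⟩
  · by_cases hax : a = x₁
    · subst hax
      rcases (hajos_adj _ _).1 htw' with ⟨p, q, ⟨hpq, hne⟩, ha, hb⟩ | ⟨p, q, ⟨hpq, hne⟩, ha, hb⟩ |
        ⟨⟨ha, hb⟩ | ⟨ha, hb⟩, _⟩
      · rw [Sum.inl.inj ha, Sum.inl.inj hb] at hne
        exact hne rfl
      · exact hw' q hb
      · exact e₁.ne (Sum.inl.inj ha)
      · exact htu ha
    · have := key (emb x₁ x₂ y₂) (Sum.inl a) hu' (fun b hb => hax (emb_eq_inl hb).2) htu'.symm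
      exact htw this.2
  · have := key (Sum.inr ⟨b, hb⟩) (Sum.inl y₁) (fun a h => by simp at h) hw' htw'
    exact htu this.1

end Hajos

/-! ### The building blocks -/

/-- `K₁₀`. -/
lemma top_edgeCrit (k : ℕ) : EdgeCrit k (⊤ : SimpleGraph (Fin (k + 1))) := by
  refine ⟨?_, ?_⟩
  · intro h
    obtain ⟨c, hc⟩ := fun_of_colorable h
    have hinj : Function.Injective c := by
      intro a b hab
      by_contra hne
      exact hc a b (by simpa using hne) hab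
    have := Fintype.card_le_of_injective c hinj
    simp at this
  · intro a b hab
    have hne : a ≠ b := hab.ne
    -- colour with `{v // v ≠ b}`
    have hcard : Fintype.card {v : Fin (k + 1) // v ≠ b} = k := by
      rw [Fintype.card_subtype_compl]
      simp
    let φ := Fintype.equivFinOfCardEq hcard
    refine colorable_of_fun (fun v => φ (if h : v = b then ⟨a, hne⟩ else ⟨v, h⟩)) ?_
    intro p q hpq heq
    rw [deleteEdges_adj] at hpq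
    have heq' := φ.injective heq
    by_cases hp : p = b
    · by_cases hq : q = b
      · exact hpq.1.ne (hp.trans hq.symm)
      · simp only [hp, hq, dif_pos, dif_neg, not_false_eq_true, Subtype.mk.injEq] at heq'
        apply hpq.2
        simp only [Set.mem_singleton_iff, Sym2.eq_iff]
        exact Or.inr ⟨hp, heq'.symm⟩
    · by_cases hq : q = b
      · simp only [hp, hq, dif_pos, dif_neg, not_false_eq_true, Subtype.mk.injEq] at heq'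
        apply hpq.2
        simp only [Set.mem_singleton_iff, Sym2.eq_iff]
        exact Or.inl ⟨heq', hq⟩
      · simp only [hp, hq, dif_neg, not_false_eq_true, Subtype.mk.injEq] at heq'
        exact hpq.1.ne heq'

lemma top_twoNbrs : TwoNbrs (⊤ : SimpleGraph (Fin 10)) := by
  intro v
  simp only [top_adj]
  revert v
  decide

lemma top_ncard : (⊤ : SimpleGraph (Fin 10)).edgeSet.ncard = 45 := by
  have : (⊤ : SimpleGraph (Fin 10)).edgeFinset.card = 45 := by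
    rw [card_edgeFinset_top_eq_card_choose_two]
    rfl
  rw [← this, ← coe_edgeFinset, Set.ncard_coe_finset]

/-- Adjacency of `C₅ ∨ C₅ ∨ K₄` on `0, …, 13`: distinct `a`, `b` are non-adjacent only if they are
cyclically consecutive in `0, …, 4` or cyclically consecutive in `5, …, 9`. (The complement of a
pentagon is a pentagon.) -/
def adjB (a b : ℕ) : Bool :=
  a != b && !(a / 5 == b / 5 && decide (a / 5 < 2) &&
    ((a + 1) % 5 == b % 5 || (b + 1) % 5 == a % 5))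

/-- The graph `C₅ ∨ C₅ ∨ K₄`. -/
def leaf : SimpleGraph (Fin 14) where
  Adj a b := adjB a.1 b.1 = true
  symm := ⟨by decide +kernel⟩
  loopless := ⟨by decide +kernel⟩

instance : DecidableRel leaf.Adj := fun a b => inferInstanceAs (Decidable (adjB a.1 b.1 = true))

/-- For every edge of `leaf`, a colouring with nine colours of the graph without that edge. -/
def table : List ((ℕ × ℕ) × List ℕ) := [
  ((0, 2), [0, 0, 0, 1, 1, 4, 2, 2, 3, 3, 5, 6, 7, 8]),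
  ((0, 3), [0, 1, 1, 0, 0, 4, 2, 2, 3, 3, 5, 6, 7, 8]),
  ((0, 5), [0, 1, 1, 2, 2, 0, 3, 3, 4, 4, 5, 6, 7, 8]),
  ((0, 6), [0, 1, 1, 2, 2, 4, 0, 3, 3, 4, 5, 6, 7, 8]),
  ((0, 7), [0, 1, 1, 2, 2, 4, 4, 0, 3, 3, 5, 6, 7, 8]),
  ((0, 8), [0, 1, 1, 2, 2, 3, 4, 4, 0, 3, 5, 6, 7, 8]),
  ((0, 9), [0, 1, 1, 2, 2, 3, 3, 4, 4, 0, 5, 6, 7, 8]),
  ((0, 10), [0, 1, 1, 2, 2, 5, 3, 3, 4, 4, 0, 6, 7, 8]),
  ((0, 11), [0, 1, 1, 2, 2, 5, 3, 3, 4, 4, 6, 0, 7, 8]),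
  ((0, 12), [0, 1, 1, 2, 2, 5, 3, 3, 4, 4, 6, 7, 0, 8]),
  ((0, 13), [0, 1, 1, 2, 2, 5, 3, 3, 4, 4, 6, 7, 8, 0]),
  ((1, 3), [1, 0, 0, 0, 1, 4, 2, 2, 3, 3, 5, 6, 7, 8]),
  ((1, 4), [0, 0, 1, 1, 0, 4, 2, 2, 3, 3, 5, 6, 7, 8]),
  ((1, 5), [2, 0, 1, 1, 2, 0, 3, 3, 4, 4, 5, 6, 7, 8]),
  ((1, 6), [2, 0, 1, 1, 2, 4, 0, 3, 3, 4, 5, 6, 7, 8]),
  ((1, 7), [2, 0, 1, 1, 2, 4, 4, 0, 3, 3, 5, 6, 7, 8]),
  ((1, 8), [2, 0, 1, 1, 2, 3, 4, 4, 0, 3, 5, 6, 7, 8]),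
  ((1, 9), [2, 0, 1, 1, 2, 3, 3, 4, 4, 0, 5, 6, 7, 8]),
  ((1, 10), [2, 0, 1, 1, 2, 5, 3, 3, 4, 4, 0, 6, 7, 8]),
  ((1, 11), [2, 0, 1, 1, 2, 5, 3, 3, 4, 4, 6, 0, 7, 8]),
  ((1, 12), [2, 0, 1, 1, 2, 5, 3, 3, 4, 4, 6, 7, 0, 8]),
  ((1, 13), [2, 0, 1, 1, 2, 5, 3, 3, 4, 4, 6, 7, 8, 0]),
  ((2, 4), [1, 1, 0, 0, 0, 4, 2, 2, 3, 3, 5, 6, 7, 8]),
  ((2, 5), [2, 2, 0, 1, 1, 0, 3, 3, 4, 4, 5, 6, 7, 8]),
  ((2, 6), [2, 2, 0, 1, 1, 4, 0, 3, 3, 4, 5, 6, 7, 8]),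
  ((2, 7), [2, 2, 0, 1, 1, 4, 4, 0, 3, 3, 5, 6, 7, 8]),
  ((2, 8), [2, 2, 0, 1, 1, 3, 4, 4, 0, 3, 5, 6, 7, 8]),
  ((2, 9), [2, 2, 0, 1, 1, 3, 3, 4, 4, 0, 5, 6, 7, 8]),
  ((2, 10), [2, 2, 0, 1, 1, 5, 3, 3, 4, 4, 0, 6, 7, 8]),
  ((2, 11), [2, 2, 0, 1, 1, 5, 3, 3, 4, 4, 6, 0, 7, 8]),
  ((2, 12), [2, 2, 0, 1, 1, 5, 3, 3, 4, 4, 6, 7, 0, 8]),
  ((2, 13), [2, 2, 0, 1, 1, 5, 3, 3, 4, 4, 6, 7, 8, 0]),
  ((3, 5), [1, 2, 2, 0, 1, 0, 3, 3, 4, 4, 5, 6, 7, 8]),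
  ((3, 6), [1, 2, 2, 0, 1, 4, 0, 3, 3, 4, 5, 6, 7, 8]),
  ((3, 7), [1, 2, 2, 0, 1, 4, 4, 0, 3, 3, 5, 6, 7, 8]),
  ((3, 8), [1, 2, 2, 0, 1, 3, 4, 4, 0, 3, 5, 6, 7, 8]),
  ((3, 9), [1, 2, 2, 0, 1, 3, 3, 4, 4, 0, 5, 6, 7, 8]),
  ((3, 10), [1, 2, 2, 0, 1, 5, 3, 3, 4, 4, 0, 6, 7, 8]),
  ((3, 11), [1, 2, 2, 0, 1, 5, 3, 3, 4, 4, 6, 0, 7, 8]),
  ((3, 12), [1, 2, 2, 0, 1, 5, 3, 3, 4, 4, 6, 7, 0, 8]),
  ((3, 13), [1, 2, 2, 0, 1, 5, 3, 3, 4, 4, 6, 7, 8, 0]),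
  ((4, 5), [1, 1, 2, 2, 0, 0, 3, 3, 4, 4, 5, 6, 7, 8]),
  ((4, 6), [1, 1, 2, 2, 0, 4, 0, 3, 3, 4, 5, 6, 7, 8]),
  ((4, 7), [1, 1, 2, 2, 0, 4, 4, 0, 3, 3, 5, 6, 7, 8]),
  ((4, 8), [1, 1, 2, 2, 0, 3, 4, 4, 0, 3, 5, 6, 7, 8]),
  ((4, 9), [1, 1, 2, 2, 0, 3, 3, 4, 4, 0, 5, 6, 7, 8]),
  ((4, 10), [1, 1, 2, 2, 0, 5, 3, 3, 4, 4, 0, 6, 7, 8]),
  ((4, 11), [1, 1, 2, 2, 0, 5, 3, 3, 4, 4, 6, 0, 7, 8]),
  ((4, 12), [1, 1, 2, 2, 0, 5, 3, 3, 4, 4, 6, 7, 0, 8]),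
  ((4, 13), [1, 1, 2, 2, 0, 5, 3, 3, 4, 4, 6, 7, 8, 0]),
  ((5, 7), [4, 2, 2, 3, 3, 0, 0, 0, 1, 1, 5, 6, 7, 8]),
  ((5, 8), [4, 2, 2, 3, 3, 0, 1, 1, 0, 0, 5, 6, 7, 8]),
  ((5, 10), [3, 1, 1, 2, 2, 0, 4, 4, 5, 5, 0, 6, 7, 8]),
  ((5, 11), [3, 1, 1, 2, 2, 0, 4, 4, 5, 5, 6, 0, 7, 8]),
  ((5, 12), [3, 1, 1, 2, 2, 0, 4, 4, 5, 5, 6, 7, 0, 8]),
  ((5, 13), [3, 1, 1, 2, 2, 0, 4, 4, 5, 5, 6, 7, 8, 0]),
  ((6, 8), [4, 2, 2, 3, 3, 1, 0, 0, 0, 1, 5, 6, 7, 8]),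
  ((6, 9), [4, 2, 2, 3, 3, 0, 0, 1, 1, 0, 5, 6, 7, 8]),
  ((6, 10), [3, 1, 1, 2, 2, 5, 0, 4, 4, 5, 0, 6, 7, 8]),
  ((6, 11), [3, 1, 1, 2, 2, 5, 0, 4, 4, 5, 6, 0, 7, 8]),
  ((6, 12), [3, 1, 1, 2, 2, 5, 0, 4, 4, 5, 6, 7, 0, 8]),
  ((6, 13), [3, 1, 1, 2, 2, 5, 0, 4, 4, 5, 6, 7, 8, 0]),
  ((7, 9), [4, 2, 2, 3, 3, 1, 1, 0, 0, 0, 5, 6, 7, 8]),
  ((7, 10), [3, 1, 1, 2, 2, 5, 5, 0, 4, 4, 0, 6, 7, 8]),
  ((7, 11), [3, 1, 1, 2, 2, 5, 5, 0, 4, 4, 6, 0, 7, 8]),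
  ((7, 12), [3, 1, 1, 2, 2, 5, 5, 0, 4, 4, 6, 7, 0, 8]),
  ((7, 13), [3, 1, 1, 2, 2, 5, 5, 0, 4, 4, 6, 7, 8, 0]),
  ((8, 10), [3, 1, 1, 2, 2, 4, 5, 5, 0, 4, 0, 6, 7, 8]),
  ((8, 11), [3, 1, 1, 2, 2, 4, 5, 5, 0, 4, 6, 0, 7, 8]),
  ((8, 12), [3, 1, 1, 2, 2, 4, 5, 5, 0, 4, 6, 7, 0, 8]),
  ((8, 13), [3, 1, 1, 2, 2, 4, 5, 5, 0, 4, 6, 7, 8, 0]),
  ((9, 10), [3, 1, 1, 2, 2, 4, 4, 5, 5, 0, 0, 6, 7, 8]),
  ((9, 11), [3, 1, 1, 2, 2, 4, 4, 5, 5, 0, 6, 0, 7, 8]),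
  ((9, 12), [3, 1, 1, 2, 2, 4, 4, 5, 5, 0, 6, 7, 0, 8]),
  ((9, 13), [3, 1, 1, 2, 2, 4, 4, 5, 5, 0, 6, 7, 8, 0]),
  ((10, 11), [3, 1, 1, 2, 2, 6, 4, 4, 5, 5, 0, 0, 7, 8]),
  ((10, 12), [3, 1, 1, 2, 2, 6, 4, 4, 5, 5, 0, 7, 0, 8]),
  ((10, 13), [3, 1, 1, 2, 2, 6, 4, 4, 5, 5, 0, 7, 8, 0]),
  ((11, 12), [3, 1, 1, 2, 2, 6, 4, 4, 5, 5, 7, 0, 0, 8]),
  ((11, 13), [3, 1, 1, 2, 2, 6, 4, 4, 5, 5, 7, 0, 8, 0]),
  ((12, 13), [3, 1, 1, 2, 2, 6, 4, 4, 5, 5, 7, 8, 0, 0])]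

def validB (t : (ℕ × ℕ) × List ℕ) : Bool :=
  (List.range 14).all fun p => decide (t.2.getD p 0 < 9) && (List.range 14).all fun q =>
    !(adjB p q) || (p == t.1.1 && q == t.1.2) || (p == t.1.2 && q == t.1.1) ||
      (t.2.getD p 0 != t.2.getD q 0)

lemma table_valid : (table.all validB) = true := by decide +kernel

lemma table_complete : ∀ a b : Fin 14, leaf.Adj a b →
    (table.any fun t => t.1 == (a.1, b.1) || t.1 == (b.1, a.1)) = true := by decide +kernel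

lemma leaf_del {a b : Fin 14} (h : leaf.Adj a b) : (leaf.deleteEdges {s(a, b)}).Colorable 9 := by
  have h1 := table_complete a b h
  rw [List.any_eq_true] at h1
  obtain ⟨t, ht, hab⟩ := h1
  have h2 := table_valid
  rw [List.all_eq_true] at h2
  have h3 := h2 t ht
  unfold validB at h3
  rw [List.all_eq_true] at h3
  have hlt : ∀ p : Fin 14, t.2.getD p.1 0 < 9 := by
    intro p
    have := h3 p.1 (by simp)
    rw [Bool.and_eq_true] at this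
    exact of_decide_eq_true this.1
  refine colorable_of_fun (fun p => ⟨t.2.getD p.1 0, hlt p⟩) ?_
  intro p q hpq heq
  rw [deleteEdges_adj] at hpq
  have := h3 p.1 (by simp)
  rw [Bool.and_eq_true, List.all_eq_true] at this
  have h4 := this.2 q.1 (by simp)
  have hadj : adjB p.1 q.1 = true := hpq.1
  have heq' : t.2.getD p.1 0 = t.2.getD q.1 0 := congrArg Fin.val heq
  simp only [hadj, heq', Bool.not_true, Bool.false_or, bne_self_eq_false, Bool.or_false,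
    Bool.or_eq_true, Bool.and_eq_true, beq_iff_eq] at h4 hab
  apply hpq.2
  simp only [Set.mem_singleton_iff, Sym2.eq_iff, Fin.ext_iff]
  rcases hab with h | h
  · rw [h] at h4
    exact h4
  · rw [h] at h4
    rcases h4 with ⟨h5, h6⟩ | ⟨h5, h6⟩
    · exact Or.inr ⟨h5, h6⟩
    · exact Or.inl ⟨h5, h6⟩

lemma no_ten (c : Fin 14 → Fin 9) (hc : ∀ a b, leaf.Adj a b → c a ≠ c b) (l : Fin 10 → Fin 14)
    (a₁ b₁ a₂ b₂ : Fin 14) (h₁ : c a₁ ≠ c b₁) (h₂ : c a₂ ≠ c b₂)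
    (h : ∀ i j, i ≠ j → leaf.Adj (l i) (l j) ∨ (l i = a₁ ∧ l j = b₁) ∨ (l i = b₁ ∧ l j = a₁) ∨
      (l i = a₂ ∧ l j = b₂) ∨ (l i = b₂ ∧ l j = a₂)) : False := by
  have hinj : Function.Injective (c ∘ l) := by
    intro i j hij
    by_contra hne
    have hij' : c (l i) = c (l j) := hij
    rcases h i j hne with h | ⟨h, h'⟩ | ⟨h, h'⟩ | ⟨h, h'⟩ | ⟨h, h'⟩
    · exact hc _ _ h hij'
    · rw [h, h'] at hij'
      exact h₁ hij'
    · rw [h, h'] at hij'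
      exact h₁ hij'.symm
    · rw [h, h'] at hij'
      exact h₂ hij'
    · rw [h, h'] at hij'
      exact h₂ hij'.symm
  have := Fintype.card_le_of_injective _ hinj
  simp at this

lemma leaf_not_colorable : ¬ leaf.Colorable 9 := by
  intro h
  obtain ⟨c, hc⟩ := fun_of_colorable h
  have a1 : c 4 ≠ c 1 := hc _ _ (by decide)
  have a2 : c 9 ≠ c 6 := hc _ _ (by decide)
  by_cases h01 : c 0 = c 1
  · by_cases h56 : c 5 = c 6
    · exact no_ten c hc ![0, 2, 4, 5, 7, 9, 10, 11, 12, 13] 0 4 5 9 (by rw [h01]; exact a1.symm)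
        (by rw [h56]; exact a2.symm) (by decide +kernel)
    · exact no_ten c hc ![0, 2, 4, 5, 6, 8, 10, 11, 12, 13] 0 4 5 6 (by rw [h01]; exact a1.symm)
        h56 (by decide +kernel)
  · by_cases h56 : c 5 = c 6
    · exact no_ten c hc ![0, 1, 3, 5, 7, 9, 10, 11, 12, 13] 0 1 5 9 h01
        (by rw [h56]; exact a2.symm) (by decide +kernel)
    · exact no_ten c hc ![0, 1, 3, 5, 6, 8, 10, 11, 12, 13] 0 1 5 6 h01 h56 (by decide +kernel)

lemma leaf_edgeCrit : EdgeCrit 9 leaf := ⟨leaf_not_colorable, fun _ _ h => leaf_del h⟩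

lemma sum14 (f : Fin 14 → ℕ) : ∑ i, f i =
    f 0 + f 1 + f 2 + f 3 + f 4 + f 5 + f 6 + f 7 + f 8 + f 9 + f 10 + f 11 + f 12 + f 13 := by
  simp only [Fin.sum_univ_castSucc, Fin.sum_univ_zero, zero_add]
  rfl

lemma leaf_cliqueFree : leaf.CliqueFree 9 := by
  intro s hs
  rw [isNClique_iff] at hs
  obtain ⟨hcl, hcard⟩ := hs
  obtain ⟨f, hf⟩ : ∃ f : Fin 14 → ℕ, ∀ i, f i = if i ∈ s then 1 else 0 := ⟨_, fun _ => rfl⟩
  have key : ∀ a b : Fin 14, a ≠ b → ¬ leaf.Adj a b → f a + f b ≤ 1 := by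
    intro a b hab hnot
    rw [hf, hf]
    by_cases ha : a ∈ s <;> by_cases hb : b ∈ s <;> simp [ha, hb]
    exact hnot (hcl ha hb hab)
  have hle : ∀ a : Fin 14, f a ≤ 1 := by
    intro a
    rw [hf]
    by_cases ha : a ∈ s <;> simp [ha]
  have hsum : s.card = ∑ i : Fin 14, f i := by
    simp [hf]
  rw [hcard, sum14] at hsum
  have h1 := key 0 1 (by decide) (by decide)
  have h2 := key 1 2 (by decide) (by decide)
  have h3 := key 2 3 (by decide) (by decide)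
  have h4 := key 3 4 (by decide) (by decide)
  have h5 := key 4 0 (by decide) (by decide)
  have h6 := key 5 6 (by decide) (by decide)
  have h7 := key 6 7 (by decide) (by decide)
  have h8 := key 7 8 (by decide) (by decide)
  have h9 := key 8 9 (by decide) (by decide)
  have h10 := key 9 5 (by decide) (by decide)
  have k1 := hle 10
  have k2 := hle 11
  have k3 := hle 12
  have k4 := hle 13
  omega

lemma leaf_twoNbrs : TwoNbrs leaf := by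
  unfold TwoNbrs
  decide +kernel

lemma leaf_ncard : leaf.edgeSet.ncard = 81 := by
  have : leaf.edgeFinset.card = 81 := by decide +kernel
  rw [← this, ← coe_edgeFinset, Set.ncard_coe_finset]

/-- `K₁₀` without two disjoint edges is `8`-colorable. -/
lemma top_two_del : (((⊤ : SimpleGraph (Fin 10)).deleteEdges {s(0, 1)}).deleteEdges
    {s(2, 3)}).CliqueFree 9 := by
  refine Colorable.cliqueFree (n := 8) ?_ (by norm_num)
  refine colorable_of_fun ![0, 0, 1, 1, 2, 3, 4, 5, 6, 7] ?_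
  simp only [deleteEdges_adj, top_adj, Set.mem_singleton_iff, Sym2.eq_iff]
  decide +kernel

lemma hajos_comap_inl_le {V₁ V₂ : Type} {G₁ : SimpleGraph V₁} {G₂ : SimpleGraph V₂} {x₁ y₁ : V₁}
    {x₂ y₂ : V₂} (e₂ : G₂.Adj x₂ y₂) :
    (hajos G₁ G₂ x₁ y₁ x₂ y₂).comap (Function.Embedding.inl : V₁ ↪ V₁ ⊕ {v : V₂ // v ≠ x₂}) ≤
      G₁.deleteEdges {s(x₁, y₁)} := by
  intro a b hab
  rw [comap_adj, Function.Embedding.inl_apply, Function.Embedding.inl_apply, hajos_adj] at hab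
  rw [deleteEdges_adj]
  rcases hab with ⟨p, q, ⟨hpq, hne⟩, ha, hb⟩ | ⟨p, q, ⟨hpq, hne⟩, ha, hb⟩ |
        ⟨⟨ha, hb⟩ | ⟨ha, hb⟩, _⟩
  · cases Sum.inl.inj ha
    cases Sum.inl.inj hb
    exact ⟨hpq, hne⟩
  · exact absurd ((emb_eq_inl ha).1.trans (emb_eq_inl hb).1.symm) hpq.ne
  · exact absurd (emb_eq_inl hb.symm).1 e₂.ne'
  · exact absurd (emb_eq_inl ha.symm).1 e₂.ne'

lemma hajos_comap_emb_le {V₁ V₂ : Type} {G₁ : SimpleGraph V₁} {G₂ : SimpleGraph V₂} {x₁ y₁ : V₁}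
    {x₂ y₂ : V₂} (e₁ : G₁.Adj x₁ y₁) :
    (hajos G₁ G₂ x₁ y₁ x₂ y₂).comap (emb x₁ x₂) ≤ G₂.deleteEdges {s(x₂, y₂)} := by
  intro a b hab
  rw [comap_adj, hajos_adj] at hab
  rw [deleteEdges_adj]
  rcases hab with ⟨p, q, ⟨hpq, hne⟩, ha, hb⟩ | ⟨p, q, ⟨hpq, hne⟩, ha, hb⟩ |
        ⟨⟨ha, hb⟩ | ⟨ha, hb⟩, _⟩
  · exact absurd ((emb_eq_inl ha.symm).2.trans (emb_eq_inl hb.symm).2.symm) hpq.ne
  · cases (emb x₁ x₂).injective ha
    cases (emb x₁ x₂).injective hb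
    exact ⟨hpq, hne⟩
  · exact absurd (emb_eq_inl ha).2.symm e₁.ne
  · exact absurd (emb_eq_inl hb).2.symm e₁.ne

/-- The chain: a leaf followed by `m` copies of `K₁₀`. -/
lemma chain (m : ℕ) : ∃ (V : Type) (_ : Finite V) (G : SimpleGraph V) (p q : V), G.Adj p q ∧
    EdgeCrit 9 G ∧ TwoNbrs G ∧ (G.deleteEdges {s(p, q)}).CliqueFree 9 ∧
    Nat.card V = 9 * m + 14 ∧ G.edgeSet.ncard = 44 * m + 81 := by
  induction m with
  | zero =>
    refine ⟨Fin 14, inferInstance, leaf, 0, 5, by decide, leaf_edgeCrit, leaf_twoNbrs,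
      leaf_cliqueFree.anti (deleteEdges_le _), by simp, by simpa using leaf_ncard⟩
  | succ m ih =>
    obtain ⟨V, hV, G, p, q, hpq, hcrit, htwo, hfree, hcard, hedge⟩ := ih
    have e₂ : (⊤ : SimpleGraph (Fin 10)).Adj 0 1 := by simp
    have h23 : (⊤ : SimpleGraph (Fin 10)).Adj 2 3 := by simp
    refine ⟨V ⊕ {v : Fin 10 // v ≠ 0}, inferInstance, hajos G ⊤ p q 0 1, emb p 0 2, emb p 0 3,
      hajos_adj_emb h23 (by simp), hajos_edgeCrit hcrit (top_edgeCrit 9) hpq e₂,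
      hajos_twoNbrs htwo top_twoNbrs hpq e₂, ?_, ?_, ?_⟩
    · refine hajos_cliqueFree (by norm_num) hpq (deleteEdges_le _) ?_ ?_
      · refine hfree.anti ((SimpleGraph.comap_monotone _ (deleteEdges_le _)).trans
          (hajos_comap_inl_le e₂))
      · refine top_two_del.anti ?_
        intro a b hab
        rw [comap_adj, deleteEdges_adj] at hab
        have h1 := hajos_comap_emb_le hpq (x₂ := (0 : Fin 10)) (y₂ := 1) (G₂ := ⊤)
          (show ((hajos G ⊤ p q 0 1).comap (emb p 0)).Adj a b from hab.1)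
        rw [deleteEdges_adj]
        refine ⟨h1, ?_⟩
        intro h
        apply hab.2
        simp only [Set.mem_singleton_iff, Sym2.eq_iff] at h ⊢
        rcases h with ⟨rfl, rfl⟩ | ⟨rfl, rfl⟩
        · exact Or.inl ⟨rfl, rfl⟩
        · exact Or.inr ⟨rfl, rfl⟩
    · have : Nat.card {v : Fin 10 // v ≠ 0} = 9 := by
        simp [Nat.card_eq_fintype_card]
      rw [Nat.card_sum, hcard, this]
      ring
    · have h := hajos_ncard (G₁ := G) (G₂ := (⊤ : SimpleGraph (Fin 10))) hpq e₂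
      rw [hedge, top_ncard] at h
      omega

/-- For every `m` there is a `10`-critical `K₉`-free graph with `9m + 27` vertices and `44m + 161`
edges. For `m ≥ 37` this number of edges is at most `5n - 11`, where `n = 9m + 27`. -/
theorem main (m : ℕ) : ∃ G : SimpleGraph (Fin (9 * m + 27)),
    (G.chromaticNumber = ((10 : ℕ) : ℕ∞) ∧
      ∀ H : G.Subgraph, H ≠ ⊤ → H.coe.chromaticNumber < ((10 : ℕ) : ℕ∞)) ∧
    G.CliqueFree 9 ∧ G.edgeSet.ncard = 44 * m + 161 ∧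
      (37 ≤ m → (G.edgeSet.ncard : ℤ) ≤ 5 * ((9 * m + 27 : ℕ) : ℤ) - 11) := by
  obtain ⟨V, hV, G, p, q, hpq, hcrit, htwo, hfree, hcard, hedge⟩ := chain m
  have e₂ : leaf.Adj 0 5 := by decide
  have hc1 := hajos_edgeCrit hcrit leaf_edgeCrit hpq e₂
  have hc2 := hajos_twoNbrs htwo leaf_twoNbrs hpq e₂
  have hc3 : (hajos G leaf p q 0 5).CliqueFree 9 := by
    refine hajos_cliqueFree (by norm_num) hpq le_rfl ?_ ?_
    · exact hfree.anti (hajos_comap_inl_le e₂)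
    · exact leaf_cliqueFree.anti ((hajos_comap_emb_le hpq).trans (deleteEdges_le _))
  have hc4 := hajos_ncard (G₁ := G) (G₂ := leaf) hpq e₂
  rw [hedge, leaf_ncard] at hc4
  have hn : Nat.card (V ⊕ {v : Fin 14 // v ≠ 0}) = 9 * m + 27 := by
    have : Nat.card {v : Fin 14 // v ≠ 0} = 13 := by
      simp [Nat.card_eq_fintype_card]
    rw [Nat.card_sum, hcard, this]
  let φ : (V ⊕ {v : Fin 14 // v ≠ 0}) ≃ Fin (9 * m + 27) := Finite.equivFinOfCardEq hn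
  let G' : SimpleGraph (Fin (9 * m + 27)) := (hajos G leaf p q 0 5).comap φ.symm
  have hedge' : G'.edgeSet.ncard = 44 * m + 161 := by
    have hmap : G' = (hajos G leaf p q 0 5).map φ.toEmbedding := by
      rw [← SimpleGraph.comap_symm]
      rfl
    rw [hmap, edgeSet_map, Set.ncard_image_of_injective _ (Function.Embedding.injective _)]
    omega
  refine ⟨G', ?_, ?_, hedge', ?_⟩
  · have h9 : EdgeCrit 9 G' := by
      refine ⟨?_, ?_⟩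
      · intro h
        apply hc1.1
        refine Colorable.of_hom (G' := G') ⟨fun v => φ v, ?_⟩ h
        intro a b hab
        simpa [G'] using hab
      · intro a b hab
        have h := hc1.2 (φ.symm a) (φ.symm b) hab
        refine Colorable.of_hom ⟨fun v => φ.symm v, ?_⟩ h
        intro u v huv
        rw [deleteEdges_adj] at huv ⊢
        refine ⟨huv.1, fun h' => huv.2 ?_⟩
        simp only [Set.mem_singleton_iff, Sym2.eq_iff, φ.symm.injective.eq_iff] at h' ⊢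
        exact h'
    refine isCritical_of_edgeCrit h9 ?_ ⟨⟨0, by omega⟩⟩
    intro v
    obtain ⟨z, _, hz, _, _⟩ := hc2 (φ.symm v)
    refine ⟨φ z, ?_⟩
    simpa [G'] using hz
  · refine hc3.comap ?_
    exact (SimpleGraph.Embedding.comap φ.symm.toEmbedding _).isContained
  · intro hm
    rw [hedge']
    push_cast
    omega

end Pool.Agent.Lib.MP_e338b6_co
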